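import Mathlib

/-!
# MP_c0c476_ag: minimal model programs of terminal threefolds

Every finite sequence of steps of a `K_X`-MMP of a projective terminal threefold `X` ends in an `X'` all of whose
closed points have normalized volume at least `27 / (8 (N + 4) ^ 3)`, where `N` depends only on `X`.
The published facts on which this rests are the fields of the structure `TerminalMMP`.
-/

set_option autoImplicit false

namespace Pool.T3

/-- types of the index one cover of a terminal threefold germ: smooth, or an isolated compound Du Val point of type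
`cA_n`, `cD_(n+4)`, `cE_6`, `cE_7`, `cE_8` (the type of the general hyperplane section) -/
inductive CDV
  | smooth
  | cA (n : ℕ)
  | cD (n : ℕ)
  | cE6
  | cE7
  | cE8

/-- the order of the binary polyhedral group of the general hyperplane section (`D_(n+4)`: `4 (n + 2)`) -/
def CDV.order : CDV → ℕ
  | .smooth => 1
  | .cA n => n + 1
  | .cD n => 4 * (n + 2)
  | .cE6 => 24
  | .cE7 => 48
  | .cE8 => 120

/-- so many exceptional divisors of discrepancy one with centre the point are given by weighted blow-ups: the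
weights `(a, b, 1, 1)`, `a + b = n + 1`, for `xy + g(z, t)`, and `(b + 1, b, 2, 1)`, `1 ≤ b ≤ n / 2`, for
`x^2 + y^2 z + λ y t^l + g(z, t)` of type `cD_(n+4)` -/
def CDV.ones : CDV → ℕ
  | .cA n => n
  | .cD n => n / 2
  | _ => 0

/-- The MMPs of a projective terminal threefold `X`. -/
structure TerminalMMP where
  /-- projective threefolds -/
  Model : Type
  /-- the given terminal threefold -/
  X : Model
  /-- closed points -/
  Pt : Model → Type
  /-- prime divisors over `X` -/
  Dv : Type
  /-- discrepancy of a divisor over `X` with respect to a model (`0` for the divisors on the model) -/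
  a : Model → Dv → ℝ
  /-- the centre of the divisor on the model is the closed point -/
  cen : (M : Model) → Dv → Pt M → Prop
  /-- the prime divisors on `X` -/
  onX : Set Dv
  /-- `M'` is obtained from `M` by a step of a `K`-MMP: a divisorial contraction or a flip -/
  Step : Model → Model → Prop
  /-- a bound for the number of the prime divisors contracted by an MMP: the Picard number of `X`, or the rank of
  the Weil divisors modulo algebraic equivalence if `X` is not `ℚ`-factorial -/
  rho : ℕ
  /-- normalized volume -/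
  lvol : (M : Model) → Pt M → ℝ
  /-- index of the germ: the order of the canonical divisor in the local class group -/
  idx : (M : Model) → Pt M → ℕ
  /-- type of the index one cover -/
  typ : (M : Model) → Pt M → CDV
  /-- normalized volume of the point of the index one cover over the point -/
  cvol : (M : Model) → Pt M → ℝ
  /-- the exceptional divisors over the index one cover with centre the point -/
  CD : (M : Model) → Pt M → Type
  /-- discrepancy of a divisor over the index one cover -/
  ca : (M : Model) → (x : Pt M) → CD M x → ℝ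
  /-- the divisor over the germ below a divisor over the cover -/
  dn : (M : Model) → (x : Pt M) → CD M x → Dv
  /-- ramification index -/
  ram : (M : Model) → (x : Pt M) → CD M x → ℕ
  /-- steps do not decrease discrepancies (negativity lemma) -/
  step_mono : ∀ M M', Step M M' → ∀ E, a M E ≤ a M' E
  /-- a step is an isomorphism near a closed point of the new model, or increases the discrepancies of all divisors
  with centre this point (negativity lemma: `-K` is ample on the contracted curves) -/
  step_point : ∀ M M', Step M M' → ∀ x' : Pt M',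
    (∃ x : Pt M, ∀ E, cen M' E x' → cen M E x ∧ a M' E = a M E) ∨ ∀ E, cen M' E x' → a M E < a M' E
  /-- `X` is terminal: only finitely many divisors over closed points have discrepancy at most one -/
  fin : {E | (∃ x : Pt X, cen X E x) ∧ a X E ≤ 1}.Finite
  /-- `X` is smooth outside finitely many points: a divisor with discrepancy less than one is a divisor on `X` or has
  a closed point as its centre -/
  small : ∀ E, a X E < 1 → E ∈ onX ∨ ∃ x : Pt X, cen X E x
  /-- the prime divisors of `X` contracted to points by an MMP are at most `rho` -/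
  contr : ∀ M, Relation.ReflTransGen Step X M →
    {E | E ∈ onX ∧ ∃ x : Pt M, cen M E x}.Finite ∧ {E | E ∈ onX ∧ ∃ x : Pt M, cen M E x}.ncard ≤ rho
  /-- the index is positive -/
  idx_pos : ∀ M, Relation.ReflTransGen Step X M → ∀ x : Pt M, 1 ≤ idx M x
  /-- a terminal threefold point of index `r ≥ 5` is of type `cA/r` (Mori) and has at least `r - 1` divisors of
  discrepancy less than one (weighted blow-ups, discrepancies `i / r`) -/
  idx_div : ∀ M, Relation.ReflTransGen Step X M → ∀ x : Pt M, 5 ≤ idx M x →
    ∃ F : Finset Dv, idx M x ≤ F.card + 1 ∧ ∀ E ∈ F, cen M E x ∧ a M E < 1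
  /-- weighted blow-ups of the index one cover -/
  ones_div : ∀ M, Relation.ReflTransGen Step X M → ∀ x : Pt M,
    ∃ F : Finset (CD M x), (typ M x).ones ≤ F.card ∧ ∀ f ∈ F, ca M x f = 1
  /-- centre of the divisor below -/
  dn_cen : ∀ M, Relation.ReflTransGen Step X M → ∀ (x : Pt M) (f : CD M x), cen M (dn M x f) x
  /-- log discrepancies under the quasi-étale cover -/
  dn_disc : ∀ M, Relation.ReflTransGen Step X M → ∀ (x : Pt M) (f : CD M x),
    1 ≤ ram M x f ∧ ram M x f * (a M (dn M x f) + 1) = ca M x f + 1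
  /-- the cover is cyclic of degree `idx`, so at most `idx` divisors lie over one divisor -/
  dn_card : ∀ M, Relation.ReflTransGen Step X M → ∀ (x : Pt M) (F : Finset (CD M x)) (E : Dv),
    (∀ f ∈ F, dn M x f = E) → F.card ≤ idx M x
  /-- the normalized volume is multiplied by the degree of a quasi-étale cover (Xu, Zhuang) -/
  vol_cover : ∀ M, Relation.ReflTransGen Step X M → ∀ x : Pt M, cvol M x = idx M x * lvol M x
  /-- degeneration of the cover to the product of its general hyperplane section with a line, semicontinuity of the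
  normalized volume (Blum, Liu): at least `(27 / 4) (4 / |G|)` -/
  vol_cdv : ∀ M, Relation.ReflTransGen Step X M → ∀ x : Pt M, 27 / ((typ M x).order : ℝ) ≤ cvol M x

namespace TerminalMMP

variable (W : TerminalMMP)

/-- `X'` is the end of a finite sequence of steps of an MMP of `X` -/
def Reach (M : W.Model) : Prop := Relation.ReflTransGen W.Step W.X M

/-- the number of divisors over `X` with centre a closed point and discrepancy at most one, plus `rho` -/
noncomputable def N : ℕ := {E | (∃ x : W.Pt W.X, W.cen W.X E x) ∧ W.a W.X E ≤ 1}.ncard + W.rho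

theorem reach_point (M : W.Model) (h : Relation.ReflTransGen W.Step W.X M) :
    (∀ E, W.a W.X E ≤ W.a M E) ∧ ∀ x' : W.Pt M,
      (∃ x : W.Pt W.X, ∀ E, W.cen M E x' → W.cen W.X E x ∧ W.a M E = W.a W.X E) ∨
        ∀ E, W.cen M E x' → W.a W.X E < W.a M E := by
  induction h with
  | refl => exact ⟨fun _ => le_rfl, fun x' => Or.inl ⟨x', fun E hE => ⟨hE, rfl⟩⟩⟩
  | @tail M M' _ hs ih =>
    obtain ⟨ih1, ih2⟩ := ih
    refine ⟨fun E => (ih1 E).trans (W.step_mono M M' hs E), fun x' => ?_⟩
    rcases W.step_point M M' hs x' with ⟨x, hx⟩ | hx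
    · rcases ih2 x with ⟨x0, h0⟩ | h0
      · exact Or.inl ⟨x0, fun E hE => ⟨(h0 E (hx E hE).1).1, (hx E hE).2.trans (h0 E (hx E hE).1).2⟩⟩
      · exact Or.inr fun E hE => (h0 E (hx E hE).1).trans_eq (hx E hE).2.symm
    · exact Or.inr fun E hE => (ih1 E).trans_lt (hx E hE)

theorem few (M : W.Model) (h : Relation.ReflTransGen W.Step W.X M) (x' : W.Pt M) :
    {E | W.cen M E x' ∧ W.a M E ≤ 1}.Finite ∧ {E | W.cen M E x' ∧ W.a M E ≤ 1}.ncard ≤ W.N := by
  have hsub : {E | W.cen M E x' ∧ W.a M E ≤ 1} ⊆
      {E | (∃ x : W.Pt W.X, W.cen W.X E x) ∧ W.a W.X E ≤ 1} ∪ {E | E ∈ W.onX ∧ ∃ x : W.Pt M, W.cen M E x} := by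
    rintro E ⟨hc, ha⟩
    rcases (W.reach_point M h).2 x' with ⟨x, hx⟩ | hx
    · left
      exact ⟨⟨x, (hx E hc).1⟩, by rw [← (hx E hc).2]; exact ha⟩
    · have h1 : W.a W.X E < 1 := (hx E hc).trans_le ha
      rcases W.small E h1 with h2 | h2
      · right
        exact ⟨h2, x', hc⟩
      · left
        exact ⟨h2, h1.le⟩
  obtain ⟨hf, hn⟩ := W.contr M h
  refine ⟨(W.fin.union hf).subset hsub, ?_⟩
  calc _ ≤ _ := Set.ncard_le_ncard hsub (W.fin.union hf)
    _ ≤ _ := Set.ncard_union_le _ _
    _ ≤ W.N := Nat.add_le_add_left hn _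

theorem idx_le (M : W.Model) (h : Relation.ReflTransGen W.Step W.X M) (x' : W.Pt M) :
    W.idx M x' ≤ W.N + 4 := by
  by_cases h5 : 5 ≤ W.idx M x'
  swap
  · omega
  obtain ⟨F, h1, h2⟩ := W.idx_div M h x' h5
  obtain ⟨hf, hn⟩ := W.few M h x'
  have h3 : F.card ≤ W.N := by
    rw [← Set.ncard_coe_finset]
    refine le_trans (Set.ncard_le_ncard ?_ hf) hn
    intro E hE
    exact ⟨(h2 E hE).1, (h2 E hE).2.le⟩
  omega

theorem ones_le (M : W.Model) (h : Relation.ReflTransGen W.Step W.X M) (x' : W.Pt M) :
    (W.typ M x').ones ≤ (W.N + 4) * W.N := by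
  classical
  obtain ⟨F, h1, h2⟩ := W.ones_div M h x'
  obtain ⟨hf, hn⟩ := W.few M h x'
  have h3 : F.card ≤ W.idx M x' * hf.toFinset.card := by
    refine Finset.card_le_mul_card_image_of_maps_to (f := W.dn M x') ?_ _ ?_
    · intro f hF
      rw [Set.Finite.mem_toFinset]
      refine ⟨W.dn_cen M h x' f, ?_⟩
      obtain ⟨h4, h5⟩ := W.dn_disc M h x' f
      rw [h2 f hF] at h5
      have h6 : (1 : ℝ) ≤ W.ram M x' f := by exact_mod_cast h4
      by_contra h7
      rw [not_le] at h7
      nlinarith
    · intro E _
      refine W.dn_card M h x' _ E ?_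
      intro f hf2
      exact (Finset.mem_filter.1 hf2).2
  rw [← Set.ncard_eq_toFinset_card _ hf] at h3
  exact h1.trans (h3.trans (Nat.mul_le_mul (W.idx_le M h x') hn))

theorem order_le (t : CDV) (N : ℕ) (h : t.ones ≤ (N + 4) * N) : 1 ≤ t.order ∧ t.order ≤ 8 * (N + 4) ^ 2 := by
  have h0 : 16 ≤ (N + 4) ^ 2 := by nlinarith
  have h1 : (N + 4) * N + 16 ≤ (N + 4) ^ 2 := by nlinarith
  cases t with
  | smooth => simp only [CDV.order]; omega
  | cA n => simp only [CDV.order, CDV.ones] at h ⊢; omega
  | cD n => simp only [CDV.order, CDV.ones] at h ⊢; omega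
  | cE6 => simp only [CDV.order]; omega
  | cE7 => simp only [CDV.order]; omega
  | cE8 => simp only [CDV.order]; omega

theorem bound (M : W.Model) (h : Relation.ReflTransGen W.Step W.X M) (x' : W.Pt M) :
    27 / (8 * ((W.N : ℝ) + 4) ^ 3) ≤ W.lvol M x' := by
  obtain ⟨h1, h2⟩ := order_le (W.typ M x') W.N (W.ones_le M h x')
  have h3 := W.vol_cdv M h x'
  rw [W.vol_cover M h x'] at h3
  have h4 : (1 : ℝ) ≤ W.idx M x' := by exact_mod_cast W.idx_pos M h x'
  have h5 : (W.idx M x' : ℝ) ≤ (W.N : ℝ) + 4 := by exact_mod_cast W.idx_le M h x'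
  have h6 : (1 : ℝ) ≤ ((W.typ M x').order : ℝ) := by exact_mod_cast h1
  have h7 : ((W.typ M x').order : ℝ) ≤ 8 * ((W.N : ℝ) + 4) ^ 2 := by exact_mod_cast h2
  have h8 : (0 : ℝ) < (W.idx M x' : ℝ) := by linarith
  have h9 : (0 : ℝ) < ((W.typ M x').order : ℝ) := by linarith
  have h10 : (0 : ℝ) < (W.N : ℝ) + 4 := by positivity
  rw [div_le_iff₀ h9] at h3
  rw [div_le_iff₀ (by positivity)]
  have h11 : 0 < W.lvol M x' := by
    by_contra hn
    rw [not_lt] at hn
    have : (W.idx M x' : ℝ) * W.lvol M x' * ((W.typ M x').order : ℝ) ≤ 0 :=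
      mul_nonpos_of_nonpos_of_nonneg (mul_nonpos_of_nonneg_of_nonpos h8.le hn) h9.le
    linarith
  have h12 : (W.idx M x' : ℝ) * ((W.typ M x').order : ℝ) ≤ ((W.N : ℝ) + 4) * (8 * ((W.N : ℝ) + 4) ^ 2) :=
    mul_le_mul h5 h7 h9.le h10.le
  have h13 : (W.idx M x' : ℝ) * ((W.typ M x').order : ℝ) * W.lvol M x' ≤
      ((W.N : ℝ) + 4) * (8 * ((W.N : ℝ) + 4) ^ 2) * W.lvol M x' :=
    mul_le_mul_of_nonneg_right h12 h11.le
  nlinarith

end TerminalMMP

end Pool.T3
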